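import Pool.Agent.N290.RL.Stm
import Pool.Agent.N833.RK.XQ

/-!
# RL/YQ (helper919): estimates of `P_j`, general weights (adapted from RK/XQ of helper833)
-/

set_option autoImplicit false

open Complex Set Filter Topology

namespace Pool.Agent.N919.RL

open Pool.Agent.N290.RJ Pool.Agent.N290.RL
open Pool.Agent.N290.RK (lam pp dw R3a st)
open Pool.Agent.N833.RK (g g_norm g_fd g_lip dw_norm exp_norm exp_diff dS dP)

theorem YQ_of (d : ℕ) (h3 : R3a) (hN : YN d) (hA : YA d) (hF : YF d) (hP : YP d) (hS : YS d) :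
    YQ d := by
  intro A L
  obtain ⟨C₂, hC₂, hS⟩ := hS A L
  by_cases hL1 : 1 ≤ L
  swap
  · exact ⟨1, one_pos, fun ε₂ φ χ a f hD => absurd hD.hL hL1⟩
  have hL0 : 0 < L := by linarith
  obtain ⟨C₃, hC₃⟩ : ∃ C₃, C₃ = 4 * L + 2 * (20 * L ^ 2 + 4 * L) + 6 * (L ^ 2 + L) +
      8 * L * C₂ + 24 * L ^ 2 := ⟨_, rfl⟩
  refine ⟨C₃, by rw [hC₃]; positivity, ?_⟩
  intro ε₂ φ χ a f D j
  have hA0 : 0 < A := by have := D.hA; linarith
  have hA1 : 1 ≤ A := by have := D.hA; linarith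
  obtain ⟨r1, -, -, r4, -, -⟩ := h3 φ L D.φ1 hL0 D.φ2 D.φ3 D.φ4
  have hPj : ∀ i, Pj φ A a f i = fun z => 4 * g φ (f (rad i • z)) *
      exp (-(I * (Sj φ A a f i z : ℂ))) := by
    intro i
    funext z
    unfold Pj g
    ring
  have hFj : ContDiffOn ℝ 1 (fun w => f (rad j • w)) (B d) :=
    cd_dil (cd_hol D.f1) (rad_nonneg j) (rad_lt_one j).le
  have hgC : ContDiff ℝ 1 (g φ) := by
    unfold g
    exact (Complex.ofRealCLM.contDiff.comp (D.φ1.of_le (by norm_num))).mul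
      ((Complex.conjCLE : ℂ →L[ℝ] ℂ).contDiff.comp r1)
  obtain ⟨hSj, hSe⟩ := hS ε₂ φ χ a f D j
  have hgF : ContDiffOn ℝ 1 (fun w => g φ (f (rad j • w))) (B d) := hgC.comp_contDiffOn hFj
  refine ⟨?_, fun z hz => ?_⟩
  · rw [hPj]
    exact (contDiffOn_const.mul hgF).mul (ContDiffOn.cexp
      ((contDiffOn_const.mul (Complex.ofRealCLM.contDiff.comp_contDiffOn hSj)).neg))
  obtain ⟨s0, s1, u0, u1, -, -, -, -⟩ := hN z hz j
  obtain ⟨-, f2, -, f3⟩ := hF a f D.aw D.f1 D.f3 j z hz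
  obtain ⟨-, hAl⟩ := hA A a hA1 D.aw j
  obtain ⟨al0, -, al1, -, -, -, -, -⟩ := hAl z hz
  obtain ⟨b, hb⟩ : ∃ b, b = a z := ⟨_, rfl⟩
  have hb0 : 0 < b := by rw [hb]; exact (D.aw.a2 z hz).1
  have hbS := hSe z hz
  rw [← hb] at f2 f3 al1 hbS ⊢
  obtain ⟨u, hu⟩ : ∃ u, u = ww z j := ⟨_, rfl⟩
  rw [← hu] at u0 u1 f2 f3 al1 hbS ⊢
  have n4 : ‖(4 : ℂ)‖ = 4 := by simp
  have hg := g_norm D.φ3 D.φ2
  obtain ⟨p1, p2, p3⟩ := r4 (f (rad j • z)) (al A a j z) al0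
  have hφ0 := (D.φ2 (f (rad j • z))).1
  -- `|g| |p| ≤ 2 L ^ 2`
  have hgp : ‖g φ (f (rad j • z))‖ * ‖pj φ A a f j z‖ ≤ 2 * L ^ 2 := by
    rw [(hg _).1]
    have e1 : φ (f (rad j • z)) * ‖dw φ (f (rad j • z))‖ * ‖pj φ A a f j z‖ =
        (‖pj φ A a f j z‖ * φ (f (rad j • z))) * ‖dw φ (f (rad j • z))‖ := by ring
    rw [e1]
    have e2 : ‖pj φ A a f j z‖ * φ (f (rad j • z)) ≤ 2 * L := p1
    have e3 := dw_norm D.φ3 (f (rad j • z))
    calc _ ≤ (2 * L) * L := mul_le_mul e2 e3 (norm_nonneg _) (by positivity)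
      _ = 2 * L ^ 2 := by ring
  refine ⟨?_, ?_, fun ξ => ?_⟩
  · rw [hPj]
    show ‖4 * g φ (f (rad j • z)) * exp (-(I * (Sj φ A a f j z : ℂ)))‖ ≤ C₃
    rw [norm_mul, norm_mul, exp_norm, mul_one, n4]
    have e1 := (hg (f (rad j • z))).2
    have e2 : 0 ≤ 2 * (20 * L ^ 2 + 4 * L) + 6 * (L ^ 2 + L) + 8 * L * C₂ +
      24 * L ^ 2 := by positivity
    rw [hC₃]
    linarith
  · rw [hPj, hPj]
    show ‖4 * g φ (f (rad (j + 1) • z)) * exp (-(I * (Sj φ A a f (j + 1) z : ℂ))) -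
      4 * g φ (f (rad j • z)) * exp (-(I * (Sj φ A a f j z : ℂ)))‖ ≤ _
    have e0 : 4 * g φ (f (rad (j + 1) • z)) * exp (-(I * (Sj φ A a f (j + 1) z : ℂ))) -
        4 * g φ (f (rad j • z)) * exp (-(I * (Sj φ A a f j z : ℂ))) =
        4 * (g φ (f (rad (j + 1) • z)) - g φ (f (rad j • z))) *
          exp (-(I * (Sj φ A a f (j + 1) z : ℂ))) +
        4 * g φ (f (rad j • z)) * (exp (-(I * (Sj φ A a f (j + 1) z : ℂ))) -
          exp (-(I * (Sj φ A a f j z : ℂ)))) := by ring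
    rw [e0]
    refine (norm_add_le _ _).trans ?_
    rw [norm_mul, norm_mul, norm_mul, norm_mul, exp_norm, n4, mul_one]
    have e1 := g_lip D.φ1 D.φ3 D.φ2 D.φ4 hL0.le (f (rad j • z)) (f (rad (j + 1) • z))
    have e2 := exp_diff (Sj φ A a f j z) (Sj φ A a f (j + 1) z)
    have e3 : |Sj φ A a f (j + 1) z - Sj φ A a f j z| ≤
        2 * (‖pj φ A a f j z‖ * ‖f (rad (j + 1) • z) - f (rad j • z)‖) := by
      have : Sj φ A a f (j + 1) z = Sj φ A a f j z + 2 * (pj φ A a f j z *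
        (f (rad (j + 1) • z) - f (rad j • z))).im := rfl
      rw [this, add_sub_cancel_left, abs_mul, abs_of_pos (by norm_num : (0 : ℝ) < 2), ← norm_mul]
      exact mul_le_mul_of_nonneg_left (Complex.abs_im_le_norm _) (by norm_num)
    obtain ⟨δ, hδ⟩ : ∃ δ, δ = ‖f (rad (j + 1) • z) - f (rad j • z)‖ := ⟨_, rfl⟩
    rw [← hδ] at e1 e3 f2
    have hδ0 : 0 ≤ δ := by rw [hδ]; exact norm_nonneg _
    have e4 : ‖g φ (f (rad j • z))‖ * ‖exp (-(I * (Sj φ A a f (j + 1) z : ℂ))) -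
        exp (-(I * (Sj φ A a f j z : ℂ)))‖ ≤ 4 * L ^ 2 * δ := by
      have e5 := mul_le_mul_of_nonneg_left (e2.trans e3) (norm_nonneg (g φ (f (rad j • z))))
      refine e5.trans ?_
      have e6 := mul_le_mul_of_nonneg_right hgp hδ0
      calc _ = 2 * (‖g φ (f (rad j • z))‖ * ‖pj φ A a f j z‖ * δ) := by ring
        _ ≤ 2 * (2 * L ^ 2 * δ) := by linarith
        _ = _ := by ring
    have e7 : 4 * ‖g φ (f (rad (j + 1) • z)) - g φ (f (rad j • z))‖ +
        4 * ‖g φ (f (rad j • z))‖ * ‖exp (-(I * (Sj φ A a f (j + 1) z : ℂ))) -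
        exp (-(I * (Sj φ A a f j z : ℂ)))‖ ≤ (20 * L ^ 2 + 4 * L) * δ := by
      rw [mul_assoc]
      linarith
    refine e7.trans ?_
    have e8 : (20 * L ^ 2 + 4 * L) * δ ≤ (20 * L ^ 2 + 4 * L) * (2 * (b / u) * st j z) :=
      mul_le_mul_of_nonneg_left f2 (by positivity)
    refine e8.trans ?_
    have e9 : (20 * L ^ 2 + 4 * L) * (2 * (b / u) * st j z) =
        (2 * (20 * L ^ 2 + 4 * L)) * (b * (st j z / u)) := by ring
    rw [e9, mul_assoc C₃]
    refine mul_le_mul_of_nonneg_right ?_ (mul_nonneg hb0.le (div_nonneg s0 u0.le))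
    have e10 : 0 ≤ 4 * L + 6 * (L ^ 2 + L) + 8 * L * C₂ + 24 * L ^ 2 := by positivity
    rw [hC₃]
    linarith
  · obtain ⟨x1, x2, -, -⟩ := f3 ξ
    have hbn := B_open.mem_nhds hz
    have hGd : DifferentiableAt ℝ (fun w => g φ (f (rad j • w))) z :=
      ((hgF.contDiffAt hbn).differentiableAt (by norm_num))
    have hSd : DifferentiableAt ℝ (Sj φ A a f j) z :=
      ((hSj.contDiffAt hbn).differentiableAt (by norm_num))
    have hFd : DifferentiableAt ℝ (fun w => f (rad j • w)) z :=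
      ((hFj.contDiffAt hbn).differentiableAt (by norm_num))
    have e1 := dP hGd hSd ξ
    rw [hPj]
    refine e1.trans ?_
    have e2 : ‖fderiv ℝ (fun w => g φ (f (rad j • w))) z ξ‖ ≤ (L ^ 2 + L) * ‖xj f j z ξ‖ := by
      have c1 := g_fd D.φ1 D.φ3 D.φ2 D.φ4 hL0.le (f (rad j • z))
      have c2 : HasFDerivAt (fun w => g φ (f (rad j • w)))
          ((fderiv ℝ (g φ) (f (rad j • z))).comp (fderiv ℝ (fun w => f (rad j • w)) z)) z := by
        have c0 : HasFDerivAt (g φ) (fderiv ℝ (g φ) (f (rad j • z)))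
            ((fun w => f (rad j • w)) z) := c1.1.hasFDerivAt
        exact c0.comp z hFd.hasFDerivAt
      rw [c2.fderiv, ContinuousLinearMap.comp_apply, x2]
      exact ((fderiv ℝ (g φ) (f (rad j • z))).le_opNorm _).trans
        (mul_le_mul_of_nonneg_right c1.2 (norm_nonneg _))
    have e3 := dS hSd ξ
    obtain ⟨l, hl⟩ : ∃ l, l = len z ξ := ⟨_, rfl⟩
    have hl0 : 0 ≤ l := by rw [hl]; exact len_nonneg _ _
    obtain ⟨E₀, hE₀⟩ : ∃ E₀, E₀ = ‖db (fun w => (Sj φ A a f j w : ℂ)) z ξ -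
      I * starRingEnd ℂ (pj φ A a f j z * xj f j z ξ)‖ := ⟨_, rfl⟩
    have hE0 : 0 ≤ E₀ := by rw [hE₀]; exact norm_nonneg _
    have e4 := hbS ξ
    rw [← hE₀, ← hl] at e4
    have e5 : ‖db (fun w => (Sj φ A a f j w : ℂ)) z ξ‖ ≤
        E₀ + ‖pj φ A a f j z‖ * ‖xj f j z ξ‖ := by
      have c1 := norm_add_le (db (fun w => (Sj φ A a f j w : ℂ)) z ξ -
        I * starRingEnd ℂ (pj φ A a f j z * xj f j z ξ))
        (I * starRingEnd ℂ (pj φ A a f j z * xj f j z ξ))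
      rw [sub_add_cancel, ← hE₀, norm_mul I, Complex.norm_I, one_mul, RCLike.norm_conj,
        norm_mul] at c1
      exact c1
    rw [← hl] at x1 ⊢
    -- `|g| E₀ ≤ L C₂ b u³ l`
    have e6 : ‖g φ (f (rad j • z))‖ * E₀ ≤ L * C₂ * (b * u ^ 3 * l) := by
      obtain ⟨q, hq⟩ : ∃ q, q = Real.sqrt (lam φ (f (rad j • z)) (al A a j z)) := ⟨_, rfl⟩
      have hq0 : al A a j z ≤ q := by
        rw [hq]
        apply Real.le_sqrt_of_sq_le
        unfold lam
        have := sq_nonneg (φ (f (rad j • z)))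
        linarith
      have hqa : b * u ≤ q := by
        have c1 : 1 * (b * u) ≤ A * (b * u) :=
          mul_le_mul_of_nonneg_right hA1 (mul_nonneg hb0.le u0.le)
        have c2 : A * (b * u) = A * b * u := by ring
        linarith
      have hqp : 0 < q := by linarith
      have hql : lj φ A a f j z = q ^ 2 := by
        rw [hq, Real.sq_sqrt]
        · rfl
        · unfold lam; positivity
      rw [← hq] at p3
      have c2 : ‖g φ (f (rad j • z))‖ ≤ L * q := by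
        rw [(hg _).1]
        rw [norm_mul, norm_mul, Complex.norm_real, Real.norm_eq_abs, abs_of_nonneg hφ0] at p3
        have n2 : ‖(2 : ℂ)‖ = 2 := by simp
        rw [n2] at p3
        linarith
      rw [hql] at e4
      have c3 : q * E₀ ≤ C₂ * b * u ^ 3 * l := by
        have c4 : q * (q * E₀) ≤ q * (C₂ * b * u ^ 3 * l) := by
          calc q * (q * E₀) = q ^ 2 * E₀ := by ring
            _ ≤ C₂ * b ^ 2 * u ^ 4 * l := e4
            _ = b * u * (C₂ * b * u ^ 3 * l) := by ring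
            _ ≤ q * (C₂ * b * u ^ 3 * l) :=
              mul_le_mul_of_nonneg_right hqa (by positivity)
        exact le_of_mul_le_mul_left c4 hqp
      calc ‖g φ (f (rad j • z))‖ * E₀ ≤ L * q * E₀ := mul_le_mul_of_nonneg_right c2 hE0
        _ = L * (q * E₀) := by ring
        _ ≤ L * (C₂ * b * u ^ 3 * l) := mul_le_mul_of_nonneg_left c3 hL0.le
        _ = _ := by ring
    have e7 : ‖xj f j z ξ‖ ≤ 3 / 2 * (b * u ^ 3 * l) := by
      refine x1.trans ?_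
      have c1 : u ^ 7 ≤ u ^ 3 := pow_le_pow_of_le_one u0.le u1 (by norm_num)
      have c2 : u ^ 7 * l ≤ u ^ 3 * l := mul_le_mul_of_nonneg_right c1 hl0
      have c3 := mul_le_mul_of_nonneg_left c2 (by positivity : 0 ≤ 3 / 2 * b)
      linarith
    have e8 : ‖g φ (f (rad j • z))‖ * |fderiv ℝ (Sj φ A a f j) z ξ| ≤
        2 * (L * C₂ * (b * u ^ 3 * l) + 2 * L ^ 2 * ‖xj f j z ξ‖) := by
      have c1 := mul_le_mul_of_nonneg_left e3 (norm_nonneg (g φ (f (rad j • z))))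
      have c2 := mul_le_mul_of_nonneg_left e5 (norm_nonneg (g φ (f (rad j • z))))
      have c3 := mul_le_mul_of_nonneg_right hgp (norm_nonneg (xj f j z ξ))
      have c4 : ‖g φ (f (rad j • z))‖ * (E₀ + ‖pj φ A a f j z‖ * ‖xj f j z ξ‖) =
          ‖g φ (f (rad j • z))‖ * E₀ +
            ‖g φ (f (rad j • z))‖ * ‖pj φ A a f j z‖ * ‖xj f j z ξ‖ := by ring
      rw [c4] at c2
      have c5 : ‖g φ (f (rad j • z))‖ * (2 * ‖db (fun w => (Sj φ A a f j w : ℂ)) z ξ‖) =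
          2 * (‖g φ (f (rad j • z))‖ * ‖db (fun w => (Sj φ A a f j w : ℂ)) z ξ‖) := by ring
      rw [c5] at c1
      linarith
    obtain ⟨m, hm⟩ : ∃ m, m = b * u ^ 3 * l := ⟨_, rfl⟩
    have hm0 : 0 ≤ m := by rw [hm]; positivity
    rw [← hm] at e7 e8
    have e9 : (L ^ 2 + L) * ‖xj f j z ξ‖ ≤ (L ^ 2 + L) * (3 / 2 * m) :=
      mul_le_mul_of_nonneg_left e7 (by positivity)
    have e10 : 2 * L ^ 2 * ‖xj f j z ξ‖ ≤ 2 * L ^ 2 * (3 / 2 * m) :=
      mul_le_mul_of_nonneg_left e7 (by positivity)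
    have e11 : C₃ * b * u ^ 3 * l = C₃ * m := by rw [hm]; ring
    rw [e11, hC₃]
    have e12 : 0 ≤ (4 * L + 2 * (20 * L ^ 2 + 4 * L)) * m := by positivity
    have e13 : (4 * L + 2 * (20 * L ^ 2 + 4 * L) + 6 * (L ^ 2 + L) +
      8 * L * C₂ + 24 * L ^ 2) * m = (4 * L + 2 * (20 * L ^ 2 + 4 * L)) * m +
      4 * ((L ^ 2 + L) * (3 / 2 * m)) + 8 * (L * C₂ * m) +
      8 * (2 * L ^ 2 * (3 / 2 * m)) := by ring
    rw [e13]
    linarith

end Pool.Agent.N919.RL
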